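import Pool.Agent.helper64.NQ.Spec

/-! Row NZA of helper64's plan NQ (MP_baa4d7_al): characters of order `r` of a reduced group. -/

set_option autoImplicit false

namespace Pool.Agent.NQ

open Pool.Agent.helper58.DC Pool.Agent.DI Pool.Agent.DR

/-- the homomorphisms to the units with `r`-th power `1` -/
abbrev NZA_H (r : ℕ) (H : Type) [Group H] : Type := {f : H →* ℂˣ // ∀ a, f a ^ r = 1}

theorem NZA_card_prime {H : Type} [Group H] {r : ℕ} (hr : r.Prime) (hH : Nat.card H = r) :
    Nat.card (NZA_H r H) = r := by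
  have := Fact.mk hr
  have hz : Nat.card (Multiplicative (ZMod r)) = r := by
    rw [Nat.card_congr Multiplicative.toAdd, Nat.card_zmod]
  let e : H ≃* Multiplicative (ZMod r) := mulEquivOfPrimeCardEq hH hz
  have h1 : NZA_H r H ≃ (H →* ℂˣ) := Equiv.subtypeUnivEquiv fun f a => by
    rw [← map_pow, ← hH, pow_card_eq_one', map_one]
  rw [Nat.card_congr h1, Nat.card_congr e.monoidHomCongrLeftEquiv,
    CommGroup.card_monoidHom_of_hasEnoughRootsOfUnity, hz]

theorem NZA_card_cpl {V N : Type} [Group V] [Group N] {r : ℕ} (hr : r.Prime)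
    (hN : Nat.card N = r) : Nat.card (NZA_H r V) = Nat.card (V →* N) := by
  have := Fact.mk hr
  have : NeZero r := ⟨hr.ne_zero⟩
  let κ : rootsOfUnity r ℂ ≃* N := mulEquivOfPrimeCardEq (Complex.card_rootsOfUnity r) hN
  let e : NZA_H r V ≃ (V →* rootsOfUnity r ℂ) :=
    { toFun := fun f => f.1.codRestrict (rootsOfUnity r ℂ) fun a => (mem_rootsOfUnity r _).2 (f.2 a)
      invFun := fun g => ⟨(rootsOfUnity r ℂ).subtype.comp g, fun a =>
        (mem_rootsOfUnity r _).1 (g a).2⟩
      left_inv := fun f => Subtype.ext (MonoidHom.ext fun a => rfl)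
      right_inv := fun g => MonoidHom.ext fun a => Subtype.ext rfl }
  exact Nat.card_congr (e.trans κ.monoidHomCongrRightEquiv)

theorem NZA (hGCC : GCC_stmt) : NZA_stmt := by
  intro p _ A _ _ hred r hr hrp z hz hz1 hzr
  have := Fact.mk hr
  have : NeZero r := ⟨hr.ne_zero⟩
  have hord : orderOf z = r := orderOf_eq_prime hzr hz1
  set N : Subgroup A := Subgroup.zpowers z with hNdef
  have hcardN : Nat.card N = r := by rw [hNdef, Nat.card_zpowers, hord]
  have hcen : ∀ a : A, ∀ x ∈ N, a * x = x * a := by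
    intro a x hx
    obtain ⟨k, rfl⟩ := Subgroup.mem_zpowers_iff.1 hx
    exact (show Commute a z from hz a).zpow_right k
  have hmin : MinAb N := by
    refine ⟨?_, ⟨fun n hn g => ?_⟩, fun K _ hK => ?_, fun x _ y hy => hcen x y hy⟩
    · intro h
      rw [h, Subgroup.card_bot] at hcardN
      exact hr.one_lt.ne hcardN
    · rw [hcen g n hn, mul_inv_cancel_right]
      exact hn
    · have hdvd : Nat.card K ∣ r := by
        rw [← hcardN]
        exact Subgroup.card_dvd_of_le hK
      rcases (Nat.dvd_prime hr).1 hdvd with h | h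
      · exact Or.inl (Subgroup.card_eq_one.1 h)
      · right
        exact Subgroup.eq_of_le_of_card_ge hK (by rw [h, hcardN])
  obtain ⟨-, hncpl, -⟩ := hred N hmin
  obtain ⟨-, -, hcpl⟩ := hGCC A N hmin hcen
  have hex : Nonempty {V : Subgroup A // IsCpl N V} := by
    have h1 : Nat.card {V : Subgroup A // IsCpl N V} ≠ 0 := by
      have h2 : Nat.card {V : Subgroup A // IsCpl N V} = Nat.card N := hncpl
      rw [h2, hcardN]
      exact hr.ne_zero
    exact (Nat.card_ne_zero.1 h1).1
  obtain ⟨⟨V, hV⟩⟩ := hex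
  have hVN : Nat.card (V →* N) = r := by
    rw [← hcpl V hV, hncpl, hcardN]
  -- the product decomposition
  have hdec : ∀ a : A, ∃ v : V, ∃ n : N, (v : A) * n = a := by
    intro a
    have ha : a ∈ V ⊔ N := by
      rw [hV.2]
      exact Subgroup.mem_top a
    have := hmin.nor
    rw [← SetLike.mem_coe, Subgroup.mul_normal] at ha
    obtain ⟨v, hv, n, hn, rfl⟩ := ha
    exact ⟨⟨v, hv⟩, ⟨n, hn⟩, rfl⟩
  let φ : V × N →* A :=
    { toFun := fun x => (x.1 : A) * x.2
      map_one' := by
        show (1 : A) * 1 = 1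
        exact one_mul 1
      map_mul' := by
        intro x y
        show ((x.1 : A) * y.1) * ((x.2 : A) * y.2) = (x.1 : A) * x.2 * ((y.1 : A) * y.2)
        have h1 := hcen (y.1 : A) (x.2 : A) x.2.2
        calc ((x.1 : A) * y.1) * ((x.2 : A) * y.2) = (x.1 : A) * ((y.1 : A) * x.2) * y.2 := by
              group
          _ = (x.1 : A) * ((x.2 : A) * y.1) * y.2 := by rw [h1]
          _ = (x.1 : A) * x.2 * ((y.1 : A) * y.2) := by group }
  have hφb : Function.Bijective φ := by
    refine ⟨(injective_iff_map_eq_one φ).2 ?_, fun a => ?_⟩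
    · rintro ⟨v, n⟩ h
      have h' : (v : A) * n = 1 := h
      have h1 : (v : A) = (n : A)⁻¹ := eq_inv_of_mul_eq_one_left h'
      have h2 : (v : A) ∈ V ⊓ N := ⟨v.2, by rw [h1]; exact N.inv_mem n.2⟩
      rw [hV.1, Subgroup.mem_bot] at h2
      have h3 : (n : A) = 1 := by rwa [h2, one_mul] at h'
      exact Prod.ext (Subtype.ext h2) (Subtype.ext h3)
    · obtain ⟨v, n, h⟩ := hdec a
      exact ⟨(v, n), h⟩
  let e : V × N ≃* A := MulEquiv.ofBijective φ hφb
  let Φ : NZA_H r A → NZA_H r V × NZA_H r N := fun f =>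
    (⟨f.1.comp V.subtype, fun a => f.2 a⟩, ⟨f.1.comp N.subtype, fun a => f.2 a⟩)
  have hsurj : Function.Surjective Φ := by
    rintro ⟨g, h⟩
    refine ⟨⟨(g.1.coprod h.1).comp e.symm.toMonoidHom, fun a => ?_⟩, ?_⟩
    · show (g.1.coprod h.1 (e.symm a)) ^ r = 1
      rw [MonoidHom.coprod_apply, mul_pow, g.2, h.2, one_mul]
    · refine Prod.ext (Subtype.ext (MonoidHom.ext fun v => ?_))
        (Subtype.ext (MonoidHom.ext fun n => ?_))
      · show g.1.coprod h.1 (e.symm (v : A)) = g.1 v
        have h1 : e.symm (v : A) = (v, 1) := by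
          rw [MulEquiv.symm_apply_eq]
          show (v : A) = (v : A) * ((1 : N) : A)
          rw [Subgroup.coe_one, mul_one]
        rw [h1, MonoidHom.coprod_apply, map_one, mul_one]
      · show g.1.coprod h.1 (e.symm (n : A)) = h.1 n
        have h1 : e.symm (n : A) = (1, n) := by
          rw [MulEquiv.symm_apply_eq]
          show (n : A) = ((1 : V) : A) * (n : A)
          rw [Subgroup.coe_one, one_mul]
        rw [h1, MonoidHom.coprod_apply, map_one, one_mul]
  have hinj : Function.Injective Φ := by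
    intro f f' hff
    refine Subtype.ext (MonoidHom.ext fun a => ?_)
    obtain ⟨v, n, rfl⟩ := hdec a
    have h1 : f.1 (v : A) = f'.1 (v : A) :=
      DFunLike.congr_fun (congrArg (fun x : NZA_H r V × NZA_H r N => x.1.1) hff) v
    have h2 : f.1 (n : A) = f'.1 (n : A) :=
      DFunLike.congr_fun (congrArg (fun x : NZA_H r V × NZA_H r N => x.2.1) hff) n
    rw [map_mul, map_mul, h1, h2]
  refine ⟨?_, ?_⟩
  · have h1 := Nat.card_congr (Equiv.ofBijective Φ ⟨hinj, hsurj⟩)
    have h2 : Nat.card (NZA_H r V) = r := by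
      rw [NZA_card_cpl (V := V) hr hcardN, hVN]
    rw [Nat.card_prod, NZA_card_prime hr hcardN, h2] at h1
    rw [sq]
    exact h1
  · let κ : N ≃* rootsOfUnity r ℂ := mulEquivOfPrimeCardEq hcardN (Complex.card_rootsOfUnity r)
    obtain ⟨f, hf⟩ := hsurj (⟨1, fun a => one_pow r⟩,
      ⟨(rootsOfUnity r ℂ).subtype.comp κ.toMonoidHom, fun a => (mem_rootsOfUnity r _).1 (κ a).2⟩)
    refine ⟨f.1, f.2, fun h => hz1 ?_⟩
    have hzN : z ∈ N := Subgroup.mem_zpowers z
    have h2 : f.1 z = ((κ ⟨z, hzN⟩ : rootsOfUnity r ℂ) : ℂˣ) :=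
      DFunLike.congr_fun (congrArg (fun x : NZA_H r V × NZA_H r N => x.2.1) hf) ⟨z, hzN⟩
    rw [h2] at h
    have h3 : κ ⟨z, hzN⟩ = 1 := Subtype.ext h
    have h4 : (⟨z, hzN⟩ : N) = 1 := κ.injective (by rw [h3, map_one])
    exact congrArg Subtype.val h4

end Pool.Agent.NQ
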