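import Pool.Agent.helper64.NQ.Spec

/-! Row RES of helper64's plan NQ (MP_baa4d7_al): the relation terms of a restricted extension. -/

set_option autoImplicit false

namespace Pool.Agent.NQ

open Pool.Agent.helper58.DC Pool.Agent.DI Pool.Agent.DR

theorem RES_stab {G E A : Type} [Group G] [Group E] [Group A] (X : Extension G E A)
    (C : Finset (Subgroup G)) (ψ : G → ℂ) (W : Subgroup A) :
    (resE X W).stab C ψ =
      (X.stab C ψ ⊓ W.comap X.proj).subgroupOf (W.comap X.proj) := by
  rw [Subgroup.inf_subgroupOf_right]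
  ext e
  rw [Subgroup.mem_subgroupOf]
  exact Iff.rfl

theorem RES_comap {G E A : Type} [Group G] [Group E] [Group A] (X : Extension G E A)
    (W U : Subgroup A) : (U.subgroupOf W).comap (resE X W).proj =
      (U.comap X.proj).subgroupOf (W.comap X.proj) := by
  ext e
  rw [Subgroup.mem_subgroupOf, Subgroup.mem_comap, Subgroup.mem_subgroupOf, Subgroup.mem_comap]
  exact Iff.rfl

theorem RES_ker {G E A : Type} [Group G] [Group E] [Group A] (X : Extension G E A)
    (W : Subgroup A) : (resE X W).proj.ker = X.proj.ker.subgroupOf (W.comap X.proj) := by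
  ext e
  rw [Subgroup.mem_subgroupOf, MonoidHom.mem_ker, MonoidHom.mem_ker]
  exact ⟨fun h => congrArg Subtype.val h, fun h => Subtype.ext h⟩

theorem RES_ext0 {G E A : Type} [Group G] [Group E] [Group A] (X : Extension G E A)
    (ψ : G → ℂ) (W : Subgroup A) : ext0 (resE X W).inc ψ =
      fun x : ↥(W.comap X.proj) => ext0 X.inc ψ (x : E) := by
  funext x
  by_cases h : ∃ g : G, (resE X W).inc g = x
  · obtain ⟨g, rfl⟩ := h
    have h1 : ext0 (resE X W).inc ψ ((resE X W).inc g) = ψ g :=
      (resE X W).inc_injective.extend_apply ψ 0 g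
    have h2 : ext0 X.inc ψ (X.inc g) = ψ g := X.inc_injective.extend_apply ψ 0 g
    rw [h1]
    exact h2.symm
  · have h' : ¬ ∃ g : G, X.inc g = (x : E) := by
      rintro ⟨g, hg⟩
      exact h ⟨g, Subtype.ext hg⟩
    have h1 : ext0 (resE X W).inc ψ x = 0 := Function.extend_apply' ψ (0 : ↥(W.comap X.proj) → ℂ) x h
    have h2 : ext0 X.inc ψ (x : E) = 0 := Function.extend_apply' ψ (0 : E → ℂ) (x : E) h'
    rw [h1, h2]

theorem RES (hINR : INR_stmt) : RES_stmt := by
  intro G E A _ _ _ _ _ X p C ψ W U hUW D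
  have hL : X.stab C ψ ⊓ U.comap X.proj ≤ W.comap X.proj :=
    inf_le_right.trans (Subgroup.comap_mono hUW)
  have hS : X.stab C ψ ⊓ W.comap X.proj ≤ W.comap X.proj := inf_le_right
  have hK : X.stab C ψ ⊓ X.proj.ker ≤ W.comap X.proj := by
    refine inf_le_right.trans fun e he => ?_
    rw [Subgroup.mem_comap, MonoidHom.mem_ker.1 he]
    exact W.one_mem
  have e0 : (X.stab C ψ ⊓ W.comap X.proj).subgroupOf (W.comap X.proj) =
      (X.stab C ψ).subgroupOf (W.comap X.proj) := Subgroup.inf_subgroupOf_right _ _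
  have e1 : (resE X W).stab C ψ ⊓ (U.subgroupOf W).comap (resE X W).proj =
      (X.stab C ψ ⊓ U.comap X.proj).subgroupOf (W.comap X.proj) := by
    rw [RES_stab, RES_comap, e0]
    rfl
  have e2 : (resE X W).stab C ψ ⊓ (resE X W).proj.ker =
      (X.stab C ψ ⊓ X.proj.ker).subgroupOf (W.comap X.proj) := by
    rw [RES_stab, RES_ker, e0]
    rfl
  have e3 : Nat.card ((X.stab C ψ ⊓ U.comap X.proj).subgroupOf (W.comap X.proj) :
      Subgroup ↥(W.comap X.proj)) = Nat.card (X.stab C ψ ⊓ U.comap X.proj : Subgroup E) :=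
    Nat.card_congr (Subgroup.subgroupOfEquivOfLe hL).toEquiv
  unfold relT
  rw [e1, e2, RES_stab, RES_ext0, e3, hINR E p _ _ _ _ hL hS hK]

end Pool.Agent.NQ
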